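import Pool.Agent.Helper94.UP.Sheet

/-! Row LG: locally Lipschitz with a uniform constant implies Lipschitz (helper62). -/

set_option autoImplicit false

open Set Filter Topology

namespace Pool.Agent.Helper94.UP

theorem lg_one (f : ℝ → ℝ) (K : ℝ)
    (h : ∀ t0 : ℝ, ∃ r : ℝ, 0 < r ∧ ∀ t s, |t - t0| < r → |s - t0| < r →
      |f t - f s| ≤ K * |t - s|) : |f 1 - f 0| ≤ K := by
  have hc : Continuous f := by
    rw [continuous_iff_continuousAt]
    intro t0
    obtain ⟨r, hr, hf⟩ := h t0
    rw [ContinuousAt, tendsto_iff_dist_tendsto_zero]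
    have h1 : Tendsto (fun t => K * |t - t0|) (𝓝 t0) (𝓝 0) := by
      have : Continuous fun t : ℝ => K * |t - t0| := by fun_prop
      have h2 := this.tendsto t0
      simpa using h2
    refine squeeze_zero' (Eventually.of_forall fun t => dist_nonneg) ?_ h1
    have h3 : ∀ᶠ t in 𝓝 t0, |t - t0| < r := by
      have := Metric.ball_mem_nhds t0 hr
      filter_upwards [this] with t ht
      rwa [Metric.mem_ball, Real.dist_eq] at ht
    filter_upwards [h3] with t ht
    rw [Real.dist_eq]
    exact hf t t0 ht (by simpa using hr)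
  have hcl : IsClosed ({t : ℝ | |f t - f 0| ≤ K * t} ∩ Icc 0 1) := by
    refine IsClosed.inter ?_ isClosed_Icc
    exact isClosed_le (by fun_prop) (by fun_prop)
  have h1 : (1 : ℝ) ∈ {t : ℝ | |f t - f 0| ≤ K * t} := by
    refine hcl.mem_of_ge_of_forall_exists_gt (by simp) zero_le_one ?_
    rintro t ⟨ht, ht0, ht1⟩
    obtain ⟨r, hr, hf⟩ := h t
    have h2 : t < min (t + r / 2) 1 := lt_min (by linarith) ht1
    have h3 : min (t + r / 2) 1 ≤ t + r / 2 := min_le_left _ _
    refine ⟨min (t + r / 2) 1, ?_, h2, min_le_right _ _⟩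
    have h4 : |min (t + r / 2) 1 - t| < r := by
      rw [abs_of_pos (by linarith)]
      linarith
    have h5 := hf (min (t + r / 2) 1) t h4 (by simpa using hr)
    rw [abs_of_pos (show 0 < min (t + r / 2) 1 - t by linarith)] at h5
    have h6 : |f (min (t + r / 2) 1) - f 0| ≤ |f (min (t + r / 2) 1) - f t| + |f t - f 0| :=
      abs_sub_le _ _ _
    have h7 : |f t - f 0| ≤ K * t := ht
    change |f (min (t + r / 2) 1) - f 0| ≤ K * min (t + r / 2) 1
    linarith
  have h8 : |f 1 - f 0| ≤ K * 1 := h1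
  linarith

theorem st_LG.{u} : ST_LG.{u} := by
  intro X _ _ q h C hC hloc x y
  have key := lg_one (fun t : ℝ => h (y + t • (x - y))) (C * q (x - y)) (by
    intro t0
    obtain ⟨ρ, hρ, hl⟩ := hloc (y + t0 • (x - y))
    have hn : 0 < ‖x - y‖ + 1 := by positivity
    refine ⟨ρ / (‖x - y‖ + 1), by positivity, fun t s ht hs => ?_⟩
    have aux : ∀ t : ℝ, |t - t0| < ρ / (‖x - y‖ + 1) →
        ‖(y + t • (x - y)) - (y + t0 • (x - y))‖ < ρ := by
      intro t ht
      have e : (y + t • (x - y)) - (y + t0 • (x - y)) = (t - t0) • (x - y) := by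
        rw [sub_smul]
        abel
      rw [e, norm_smul, Real.norm_eq_abs]
      rw [lt_div_iff₀ hn] at ht
      have : |t - t0| * ‖x - y‖ ≤ |t - t0| * (‖x - y‖ + 1) :=
        mul_le_mul_of_nonneg_left (by linarith) (abs_nonneg _)
      linarith
    have h1 := hl _ _ (aux t ht) (aux s hs)
    have e : (y + t • (x - y)) - (y + s • (x - y)) = (t - s) • (x - y) := by
      rw [sub_smul]
      abel
    rw [e, map_smul_eq_mul, Real.norm_eq_abs] at h1
    calc |h (y + t • (x - y)) - h (y + s • (x - y))| ≤ C * (|t - s| * q (x - y)) := h1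
      _ = C * q (x - y) * |t - s| := by ring)
  simpa using key

theorem stLG.{u} : ST_LG.{u} := st_LG.{u}

end Pool.Agent.Helper94.UP
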